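import Pool.Agent.Helper34.LL.Defs2

/-!
# Post's tag system (MP_41f897_lc), project LL, module LA2: the Poisson equation with a bound
-/

set_option autoImplicit false

namespace Pool.Agent.Helper73.LL

open Pool.Agent.Helper34.LL Pool.Agent.Helper34.SD Pool.Agent.Helper34.PT

private theorem tele {X : Type} (p0 : Equiv.Perm X) (g : X → ℝ) (x : X) (k : ℕ) :
    |g x - g ((p0 ^ k) x)| ≤
      ∑ i ∈ Finset.range k, |g ((p0 ^ i) x) - g (p0 ((p0 ^ i) x))| := by
  induction k with
  | zero => simp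
  | succ k ih =>
    rw [Finset.sum_range_succ]
    have e : (p0 ^ (k + 1)) x = p0 ((p0 ^ k) x) := by
      rw [pow_succ', Equiv.Perm.mul_apply]
    rw [e]
    calc |g x - g (p0 ((p0 ^ k) x))| =
        |(g x - g ((p0 ^ k) x)) + (g ((p0 ^ k) x) - g (p0 ((p0 ^ k) x)))| := by
          congr 1
          ring
      _ ≤ |g x - g ((p0 ^ k) x)| + |g ((p0 ^ k) x) - g (p0 ((p0 ^ k) x))| := abs_add_le _ _
      _ ≤ _ := by linarith

private theorem path {X : Type} [Fintype X] (p0 : Equiv.Perm X)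
    (ht : ∀ x y : X, ∃ k : ℕ, (p0 ^ k) x = y) (g : X → ℝ) (x y : X) :
    |g x - g y| ≤ ∑ z, |g z - g (p0 z)| := by
  classical
  have hk := Nat.find_spec (ht x y)
  have hmin : ∀ m < Nat.find (ht x y), ¬ (p0 ^ m) x = y := fun m hm => Nat.find_min (ht x y) hm
  generalize Nat.find (ht x y) = k at hk hmin
  have aux : ∀ i j : ℕ, i < j → j < k → (p0 ^ i) x ≠ (p0 ^ j) x := by
    intro i j hij hj he
    refine hmin (k - j + i) (by omega) ?_
    rw [pow_add, Equiv.Perm.mul_apply, he, ← Equiv.Perm.mul_apply, ← pow_add]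
    have : k - j + j = k := by omega
    rw [this, hk]
  have hinj : Set.InjOn (fun i => (p0 ^ i) x) (Finset.range k : Set ℕ) := by
    intro i hi j hj he
    have hi' : i < k := by simpa using hi
    have hj' : j < k := by simpa using hj
    rcases lt_trichotomy i j with h | h | h
    · exact absurd he (aux i j h hj')
    · exact h
    · exact absurd he.symm (aux j i h hi')
  rw [← hk]
  refine (tele p0 g x k).trans ?_
  rw [← Finset.sum_image (f := fun z => |g z - g (p0 z)|) (g := fun i => (p0 ^ i) x) hinj]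
  exact Finset.sum_le_univ_sum_of_nonneg fun z => abs_nonneg _

theorem hLA2 : Stmt_LA → Stmt_LA2 := by
  intro hLA X _ p0 p1 f F ht hf hF hfF
  obtain ⟨g0, hg0⟩ := hLA X p0 p1 f ht hf
  rcases isEmpty_or_nonempty X with hX | hX
  · exact ⟨g0, fun x => hX.elim x, fun x => hX.elim x⟩
  have hN : (0 : ℝ) < Fintype.card X := by exact_mod_cast Fintype.card_pos
  obtain ⟨μ, hμ⟩ : ∃ μ : ℝ, μ = (∑ x, g0 x) / Fintype.card X := ⟨_, rfl⟩
  obtain ⟨g, hgd⟩ : ∃ g : X → ℝ, g = fun x => g0 x - μ := ⟨_, rfl⟩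
  have hg : ∀ x, f x = g x - (g (p0 x) + g (p1 x)) / 2 := by
    intro x
    rw [hgd, hg0 x]
    ring
  have hsum : ∑ x, g x = 0 := by
    rw [hgd, Finset.sum_sub_distrib, Finset.sum_const, Finset.card_univ, nsmul_eq_mul, hμ]
    field_simp
    ring
  have ex1 : ∃ y, g y ≤ 0 := by
    by_contra h
    push Not at h
    have := Finset.sum_pos (fun y (_ : y ∈ Finset.univ) => h y) Finset.univ_nonempty
    linarith
  have ex2 : ∃ y, 0 ≤ g y := by
    by_contra h
    push Not at h
    have := Finset.sum_neg (fun y (_ : y ∈ Finset.univ) => h y) Finset.univ_nonempty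
    linarith
  obtain ⟨L, hL⟩ : ∃ L : ℝ, L = ∑ z, |g z - g (p0 z)| := ⟨_, rfl⟩
  have hL0 : 0 ≤ L := by
    rw [hL]
    exact Finset.sum_nonneg fun z _ => abs_nonneg _
  have hgL : ∀ x, |g x| ≤ L := by
    intro x
    obtain ⟨y, hy⟩ := ex1
    obtain ⟨y', hy'⟩ := ex2
    have h1 := path p0 ht g x y
    have h2 := path p0 ht g x y'
    rw [← hL] at h1 h2
    rw [abs_le] at h1 h2 ⊢
    constructor
    · linarith [h2.1]
    · linarith [h1.2]
  have hE : ∑ z, (g z - g (p0 z)) ^ 2 ≤ 4 * ∑ z, g z * f z := by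
    have e0 : ∑ z, g (p0 z) ^ 2 = ∑ z, g z ^ 2 := Equiv.sum_comp p0 (fun z => g z ^ 2)
    have e1 : ∑ z, g (p1 z) ^ 2 = ∑ z, g z ^ 2 := Equiv.sum_comp p1 (fun z => g z ^ 2)
    have e2 : 4 * ∑ z, g z * f z =
        ∑ z, (g z - g (p0 z)) ^ 2 + ∑ z, (g z - g (p1 z)) ^ 2
          + 2 * ∑ z, g z ^ 2 - ∑ z, g (p0 z) ^ 2 - ∑ z, g (p1 z) ^ 2 := by
      rw [Finset.mul_sum, Finset.mul_sum, ← Finset.sum_add_distrib, ← Finset.sum_add_distrib,
        ← Finset.sum_sub_distrib, ← Finset.sum_sub_distrib]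
      refine Finset.sum_congr rfl fun z _ => ?_
      rw [hg z]
      ring
    have e3 : 0 ≤ ∑ z, (g z - g (p1 z)) ^ 2 := Finset.sum_nonneg fun z _ => sq_nonneg _
    rw [e2, e0, e1]
    linarith
  have hgf : ∑ z, g z * f z ≤ Fintype.card X * (L * F) := by
    calc ∑ z, g z * f z ≤ ∑ _z : X, L * F := by
          refine Finset.sum_le_sum fun z _ => ?_
          calc g z * f z ≤ |g z * f z| := le_abs_self _
            _ = |g z| * |f z| := abs_mul _ _
            _ ≤ L * F := mul_le_mul (hgL z) (hfF z) (abs_nonneg _) hL0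
      _ = Fintype.card X * (L * F) := by
          rw [Finset.sum_const, Finset.card_univ, nsmul_eq_mul]
  have hCS : L ^ 2 ≤ Fintype.card X * ∑ z, (g z - g (p0 z)) ^ 2 := by
    have := sq_sum_le_card_mul_sum_sq (s := (Finset.univ : Finset X))
      (f := fun z => |g z - g (p0 z)|)
    rw [hL]
    simpa [sq_abs] using this
  have hfin : L * L ≤ 4 * (Fintype.card X : ℝ) ^ 2 * F * L := by
    calc L * L = L ^ 2 := by ring
      _ ≤ Fintype.card X * ∑ z, (g z - g (p0 z)) ^ 2 := hCS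
      _ ≤ Fintype.card X * (4 * (Fintype.card X * (L * F))) :=
          mul_le_mul_of_nonneg_left (by linarith) hN.le
      _ = _ := by ring
  refine ⟨g, hg, fun x => (hgL x).trans ?_⟩
  rcases hL0.eq_or_lt with h | h
  · rw [← h]
    positivity
  · exact le_of_mul_le_mul_right hfin h

end Pool.Agent.Helper73.LL
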