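import Pool.Agent.Helper34.LL.Defs

/-!
# Post's tag system (MP_41f897_lc), project LL, module LB: the maximal inequality
-/

set_option autoImplicit false

namespace Pool.Agent.Helper73.LL

open Pool.Agent.Helper34.LL Pool.Agent.Helper34.SD Pool.Agent.Helper34.PT

private theorem split (n : ℕ) (P : List Bool → Prop) :
    {w : List Bool | w.length = n + 1 ∧ P w}.ncard ≤
      {w : List Bool | w.length = n ∧ P (false :: w)}.ncard +
        {w : List Bool | w.length = n ∧ P (true :: w)}.ncard := by
  have h : {w : List Bool | w.length = n + 1 ∧ P w} =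
      (List.cons false '' {w : List Bool | w.length = n ∧ P (false :: w)}) ∪
        (List.cons true '' {w : List Bool | w.length = n ∧ P (true :: w)}) := by
    ext w
    simp only [Set.mem_setOf_eq, Set.mem_union, Set.mem_image]
    constructor
    · rintro ⟨h1, h2⟩
      cases w with
      | nil => simp at h1
      | cons b w =>
        have h3 : w.length = n := by simpa using h1
        cases b with
        | false => exact Or.inl ⟨w, ⟨h3, h2⟩, rfl⟩
        | true => exact Or.inr ⟨w, ⟨h3, h2⟩, rfl⟩
    · rintro (⟨v, ⟨h1, h2⟩, rfl⟩ | ⟨v, ⟨h1, h2⟩, rfl⟩)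
      · exact ⟨by simp [h1], h2⟩
      · exact ⟨by simp [h1], h2⟩
  rw [h]
  refine (Set.ncard_union_le _ _).trans ?_
  rw [Set.ncard_image_of_injective _ List.cons_injective,
    Set.ncard_image_of_injective _ List.cons_injective]

private theorem cnt (n : ℕ) : {w : List Bool | w.length = n ∧ True}.ncard ≤ 2 ^ n := by
  induction n with
  | zero =>
    have h : {w : List Bool | w.length = 0 ∧ True} = {[]} := by
      ext w
      simp [List.length_eq_zero_iff]
    rw [h, Set.ncard_singleton]
    norm_num
  | succ n ih =>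
    have := split n (fun _ => True)
    rw [pow_succ]
    omega

private theorem fin (n : ℕ) : {w : List Bool | w.length = n ∧ True}.Finite := by
  have h := List.finite_length_eq Bool n
  refine h.subset ?_
  rintro w ⟨hw, -⟩
  exact hw

private theorem mainLB {X : Type} (mv : X → Bool → X) (ph : X → Bool → ℝ) (c : ℝ)
    (h0 : ∀ x, ph x false + ph x true = 0) (h1 : ∀ x b, |ph x b| ≤ c) (a : ℝ) (ha : 0 < a) :
    ∀ (n : ℕ) (s : ℝ) (x : X),
    ({w : List Bool | w.length = n ∧
      ∃ p ≤ n, a ≤ |s + Phi mv ph x (w.take p)|}.ncard : ℝ) * a ^ 2 ≤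
      2 ^ n * (s ^ 2 + n * c ^ 2) := by
  intro n
  induction n with
  | zero =>
    intro s x
    by_cases hs : a ≤ |s|
    · have hsub : {w : List Bool | w.length = 0 ∧
          ∃ p ≤ 0, a ≤ |s + Phi mv ph x (w.take p)|} ⊆ {w : List Bool | w.length = 0 ∧ True} :=
        fun w hw => ⟨hw.1, trivial⟩
      have h2 := (Set.ncard_le_ncard hsub (fin 0)).trans (cnt 0)
      have h3 : ({w : List Bool | w.length = 0 ∧
          ∃ p ≤ 0, a ≤ |s + Phi mv ph x (w.take p)|}.ncard : ℝ) ≤ 2 ^ 0 := by exact_mod_cast h2
      have h4 : a ^ 2 ≤ s ^ 2 := by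
        rw [← sq_abs s]
        exact pow_le_pow_left₀ ha.le hs 2
      have h5 : (0 : ℝ) ≤ a ^ 2 := sq_nonneg a
      simp only [pow_zero, one_mul, Nat.cast_zero, zero_mul, add_zero] at h3 ⊢
      nlinarith
    · have h2 : {w : List Bool | w.length = 0 ∧
          ∃ p ≤ 0, a ≤ |s + Phi mv ph x (w.take p)|} = ∅ := by
        ext w
        simp only [Set.mem_setOf_eq, Set.mem_empty_iff_false, iff_false]
        rintro ⟨-, p, hp, hle⟩
        have : p = 0 := by omega
        subst this
        rw [List.take_zero] at hle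
        simp only [Phi, add_zero] at hle
        exact hs hle
      rw [h2, Set.ncard_empty]
      simp only [pow_zero, one_mul, Nat.cast_zero, zero_mul, add_zero]
      positivity
  | succ n ih =>
    intro s x
    by_cases hs : a ≤ |s|
    · have hsub : {w : List Bool | w.length = n + 1 ∧
          ∃ p ≤ n + 1, a ≤ |s + Phi mv ph x (w.take p)|} ⊆
            {w : List Bool | w.length = n + 1 ∧ True} :=
        fun w hw => ⟨hw.1, trivial⟩
      have h2 := (Set.ncard_le_ncard hsub (fin (n + 1))).trans (cnt (n + 1))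
      have h3 : ({w : List Bool | w.length = n + 1 ∧
          ∃ p ≤ n + 1, a ≤ |s + Phi mv ph x (w.take p)|}.ncard : ℝ) ≤ 2 ^ (n + 1) := by
        exact_mod_cast h2
      have h4 : a ^ 2 ≤ s ^ 2 := by
        rw [← sq_abs s]
        exact pow_le_pow_left₀ ha.le hs 2
      have h5 : (0 : ℝ) ≤ a ^ 2 := sq_nonneg a
      have h6 : (0 : ℝ) ≤ ((n + 1 : ℕ) : ℝ) * c ^ 2 := by positivity
      have h7 : (0 : ℝ) ≤ 2 ^ (n + 1) := by positivity
      calc _ ≤ (2 : ℝ) ^ (n + 1) * a ^ 2 := mul_le_mul_of_nonneg_right h3 h5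
        _ ≤ 2 ^ (n + 1) * (s ^ 2 + ((n + 1 : ℕ) : ℝ) * c ^ 2) :=
            mul_le_mul_of_nonneg_left (by linarith) h7
    · have key : ∀ b : Bool, {w : List Bool | w.length = n ∧
          ∃ p ≤ n + 1, a ≤ |s + Phi mv ph x ((b :: w).take p)|} =
          {w : List Bool | w.length = n ∧
            ∃ p ≤ n, a ≤ |(s + ph x b) + Phi mv ph (mv x b) (w.take p)|} := by
        intro b
        ext w
        simp only [Set.mem_setOf_eq]
        refine and_congr_right fun _ => ⟨?_, ?_⟩
        · rintro ⟨p, hp, hle⟩
          cases p with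
          | zero =>
            rw [List.take_zero] at hle
            simp only [Phi, add_zero] at hle
            exact absurd hle hs
          | succ p =>
            refine ⟨p, by omega, ?_⟩
            rw [List.take_succ_cons] at hle
            simp only [Phi] at hle
            rwa [← add_assoc] at hle
        · rintro ⟨p, hp, hle⟩
          refine ⟨p + 1, by omega, ?_⟩
          rw [List.take_succ_cons]
          simp only [Phi]
          rwa [← add_assoc]
      have h2 := split n (fun w => ∃ p ≤ n + 1, a ≤ |s + Phi mv ph x (w.take p)|)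
      rw [key false, key true] at h2
      have h3 : ({w : List Bool | w.length = n + 1 ∧
          ∃ p ≤ n + 1, a ≤ |s + Phi mv ph x (w.take p)|}.ncard : ℝ) ≤
          ({w : List Bool | w.length = n ∧
            ∃ p ≤ n, a ≤ |(s + ph x false) + Phi mv ph (mv x false) (w.take p)|}.ncard : ℝ) +
          ({w : List Bool | w.length = n ∧
            ∃ p ≤ n, a ≤ |(s + ph x true) + Phi mv ph (mv x true) (w.take p)|}.ncard : ℝ) := by
        exact_mod_cast h2
      have h4 := ih (s + ph x false) (mv x false)
      have h5 := ih (s + ph x true) (mv x true)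
      have h6 : (0 : ℝ) ≤ a ^ 2 := sq_nonneg a
      have h7 : ph x false ^ 2 ≤ c ^ 2 := by
        rw [← sq_abs (ph x false)]
        exact pow_le_pow_left₀ (abs_nonneg _) (h1 x false) 2
      have h8 : ph x true ^ 2 ≤ c ^ 2 := by
        rw [← sq_abs (ph x true)]
        exact pow_le_pow_left₀ (abs_nonneg _) (h1 x true) 2
      have h9 := h0 x
      have h10 : (0 : ℝ) ≤ 2 ^ n := by positivity
      have h11 : (s + ph x false) ^ 2 + n * c ^ 2 + ((s + ph x true) ^ 2 + n * c ^ 2) ≤
          2 * (s ^ 2 + (n + 1) * c ^ 2) := by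
        have e : (s + ph x false) ^ 2 + (s + ph x true) ^ 2 =
            2 * s ^ 2 + 2 * s * (ph x false + ph x true) + ph x false ^ 2 + ph x true ^ 2 := by
          ring
        rw [h9] at e
        nlinarith
      calc _ ≤ (({w : List Bool | w.length = n ∧
            ∃ p ≤ n, a ≤ |(s + ph x false) + Phi mv ph (mv x false) (w.take p)|}.ncard : ℝ) +
          ({w : List Bool | w.length = n ∧
            ∃ p ≤ n, a ≤ |(s + ph x true) + Phi mv ph (mv x true) (w.take p)|}.ncard : ℝ)) *
              a ^ 2 := mul_le_mul_of_nonneg_right h3 h6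
        _ ≤ 2 ^ n * ((s + ph x false) ^ 2 + n * c ^ 2) +
            2 ^ n * ((s + ph x true) ^ 2 + n * c ^ 2) := by
            rw [add_mul]
            exact add_le_add h4 h5
        _ = 2 ^ n * ((s + ph x false) ^ 2 + n * c ^ 2 + ((s + ph x true) ^ 2 + n * c ^ 2)) := by
            ring
        _ ≤ 2 ^ n * (2 * (s ^ 2 + (n + 1) * c ^ 2)) := mul_le_mul_of_nonneg_left h11 h10
        _ = 2 ^ (n + 1) * (s ^ 2 + ((n + 1 : ℕ) : ℝ) * c ^ 2) := by
            push_cast
            ring

theorem hLB : Stmt_LB := by
  intro X mv ph c _ h0 h1 n a ha x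
  have := mainLB mv ph c h0 h1 a ha n 0 x
  simpa using this

end Pool.Agent.Helper73.LL
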